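import Pool.Agent.Q100.QLMain

/-!
# The preimage of an operator range under a Borel quasi-linear map need not be normable

The definitions are in `Pool/Agent/Q100/QLDefs.lean`.
-/

set_option autoImplicit false

namespace Pool.Agent.Results.MP_8983f3_an.NotNormable

open Q100.QL TopologicalSpace

/-- Negative answer to Q1: there are separable Banach spaces `X`, `Y`, a (separable) Banach space
`M ⊆ Y` with a larger norm, and a Borel map `φ : X → Y`, linear modulo `M`, such that the Polish
vector space topology of `φ⁻¹(M)` (which exists) is not normable. -/
theorem result : ∃ (X Y M : Type)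
    (_ : NormedAddCommGroup X) (_ : NormedSpace ℝ X) (_ : CompleteSpace X) (_ : SeparableSpace X)
    (_ : NormedAddCommGroup Y) (_ : NormedSpace ℝ Y) (_ : CompleteSpace Y) (_ : SeparableSpace Y)
    (_ : NormedAddCommGroup M) (_ : NormedSpace ℝ M) (_ : CompleteSpace M) (_ : SeparableSpace M)
    (D : Data X Y M), (∃ τ, D.IsPolishVectorTopology τ) ∧
      ∀ τ, D.IsPolishVectorTopology τ → ¬ Normable τ :=
  ⟨L, L, L, inferInstance, inferInstance, inferInstance, inferInstance, inferInstance,
    inferInstance, inferInstance, inferInstance, inferInstance, inferInstance, inferInstance,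
    inferInstance, data, main⟩

end Pool.Agent.Results.MP_8983f3_an.NotNormable
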